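import Pool.Agent.Helper74K9.PS2.Fin
import Pool.Agent.Helper49K9.PS2.Cert

/-!
Clique factors in dense subgraphs of powers of cycles: all `t ≥ 3`.
-/

set_option autoImplicit false

namespace Pool.Agent.Helper74K9.PS2

open Finset Pool.Agent.Helper83K9.CF Pool.Agent.Helper74K9.PS

open Classical in
theorem cert3 : S_CERT3 := by
  intro t k N q μ f w ht hk hq1 hq2 hμ hw h0 h1 h2 hw0 hwt hl
  have h := Pool.Agent.Helper49K9.PS2.cert t k N q μ f
    (fun v => if v < N ∧ 0 < f v then μ v - load N w v else 0) w ht hk hq1 hq2 hμ hw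
    ⟨h0, h1, h2⟩ hw0 hwt
    (fun v => by
      show 0 ≤ if v < N ∧ 0 < f v then μ v - load N w v else 0
      split_ifs with hv
      · exact sub_nonneg.2 (hl v hv.1 hv.2)
      · exact le_rfl)
    (fun v hv hfv => by
      show load N w v + (if v < N ∧ 0 < f v then μ v - load N w v else 0) = μ v
      rw [if_pos ⟨hv, hfv⟩]
      ring)
  convert h

/-- the value of `A t` for every `t ≥ 3` -/
theorem all (t : ℕ) (ht : 3 ≤ t) : A t = Set.Ioi (1 - 1 / (2 * ((t : ℝ) - 1))) :=
  allT cert3 t ht

end Pool.Agent.Helper74K9.PS2
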