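import Pool.Agent.Helper64K9.PS2.End
import Pool.Agent.Helper64K9.PS2.Mainf
import Pool.Agent.Helper87K9.PS2.Lpc

/-!
Clique factors in dense subgraphs of powers of cycles: all `t ≥ 3`, assembly.
-/

set_option autoImplicit false

namespace Pool.Agent.Helper74K9.PS2

open Finset Pool.Agent.Helper83K9.CF Pool.Agent.Helper74K9.PS

open Classical in
/-- the certificate for optimal weights with the cost `3 ^ (last Y)` -/
def S_CERT3 : Prop := ∀ (t k N : ℕ) (q : ℕ → ℕ → Prop) (μ f : ℕ → ℝ) (w : Finset ℕ → ℝ),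
  2 ≤ t → 1 ≤ k → (∀ x, q x x) → (∀ x y, q x y → q y x) → (∀ x, 0 ≤ μ x) →
  (∀ z x, k ≤ z → z < N → x < N → z ≤ x + k → x ≤ z + k →
    ((t : ℝ) - 1) * ∑ y ∈ LQ q k N x, μ y ≤ ∑ y ∈ Ico (z - k) z, μ y) →
  (∀ v, 0 ≤ f v) → (∀ v, v < k → f v ≤ 1 / (t : ℝ)) →
  (∀ Y, Cq q k N Y → Y.card ≤ t → ∑ x ∈ Y, f x ≤ (3 : ℝ) ^ (Y.sup id)) →
  (∀ Y, 0 ≤ w Y) →
  (∀ Y, w Y ≠ 0 → Cq q k N Y ∧ Y.card ≤ t ∧ ∑ x ∈ Y, f x = (3 : ℝ) ^ (Y.sup id)) →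
  (∀ v, v < N → 0 < f v → load N w v ≤ μ v) →
  ∑ Y ∈ (range N).powerset, w Y * ((t : ℝ) - (Y.filter (fun v => 0 < f v)).card) ≤
    ∑ v ∈ (range N).filter (fun v => f v = 0), μ v

theorem allT (h : S_CERT3) (t : ℕ) (ht : 3 ≤ t) :
    A t = Set.Ioi (1 - 1 / (2 * ((t : ℝ) - 1))) := by
  classical
  refine Pool.Agent.Helper64K9.PS2.mainF t ht (Pool.Agent.Helper64K9.PS2.frac_of t ?_)
  intro k N q μ h2 hk hq1 hq2 hμ hcond
  have htr : (0 : ℝ) < t := by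
    have : 0 < t := by omega
    exact_mod_cast this
  obtain ⟨f, w, lam, hf, _, hw0, hwt, hl0, hl1, hcov, heq⟩ :=
    Pool.Agent.Helper87K9.PS2.lpc t k N q μ (fun Y => (3 : ℝ) ^ (Y.sup id)) (1 / (t : ℝ)) (by omega)
      (by positivity) (fun Y => by positivity)
  refine ⟨f, lam, w, hf.nonneg, hw0, fun Y hY => ⟨(hwt Y hY).1, (hwt Y hY).2.1⟩, hl0,
    fun v hv => ⟨(hl1 v hv).2.1, ?_⟩, hcov, heq, ?_⟩
  · rw [(hl1 v hv).2.2]
    positivity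
  · have h3 := h t k N q μ f w h2 hk hq1 hq2 hμ hcond hf.nonneg hf.first hf.le hw0 hwt
      (fun v hv hfv => by
        have e1 := heq v hv hfv
        have e2 := hl0 v
        linarith)
    convert h3

end Pool.Agent.Helper74K9.PS2
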